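import Mathlib
import Pool.Agent.W827.BW.Stm

/-! ISO: the isoperimetric inequality of the brick wall -/

set_option autoImplicit false

namespace Pool.Agent.W407.BW

open Pool.Agent.W827.BW

/-- the parent of a brick, one row below -/
def par (D : ℕ) (w : ℤ → ℤ) (v : ℤ × ℤ) : ℤ × ℤ :=
  (v.1 - 1, if w v.1 = w (v.1 - 1) + 1 then v.2 / (D : ℤ) else v.2 * (D : ℤ))

lemma par_adj (D : ℕ) (w : ℤ → ℤ) (hD : 2 ≤ D) (hw : Steps w) (v : ℤ × ℤ) :
    (Wall D w).Adj v (par D w v) := by
  have hD' : (0 : ℤ) < D := by exact_mod_cast (by omega : 0 < D)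
  unfold Wall RowGraph
  rw [SimpleGraph.fromRel_adj]
  refine ⟨?_, Or.inr (Or.inr ?_)⟩
  · intro h
    have := congrArg Prod.fst h
    simp only [par] at this
    omega
  · refine ⟨by simp [par], ?_⟩
    have h := hw (v.1 - 1)
    rw [sub_add_cancel] at h
    rcases h with h | h
    · have e1 : (par D w v).2 = v.2 / (D : ℤ) := by simp only [par]; rw [if_pos h]
      have e2 : ∀ i : ℤ, al D w (par D w v).1 i = i * D - 1 := by
        intro i
        simp only [par, al, sub_add_cancel]
        rw [if_pos h]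
      rw [e2, e2, e1]
      have h1 := Int.ediv_mul_le v.2 (ne_of_gt hD')
      have h2 := Int.lt_ediv_add_one_mul_self v.2 hD'
      constructor
      · linarith
      · linarith
    · have h' : ¬ (w v.1 = w (v.1 - 1) + 1) := by omega
      have e1 : (par D w v).2 = v.2 * (D : ℤ) := by simp only [par]; rw [if_neg h']
      have e2 : ∀ i : ℤ, al D w (par D w v).1 i = i / D := by
        intro i
        simp only [par, al, sub_add_cancel]
        rw [if_neg h']
      rw [e2, e2, e1]
      constructor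
      · rw [Int.mul_ediv_cancel _ (ne_of_gt hD')]
      · rw [Int.le_ediv_iff_mul_le hD']
        linarith

lemma par_iter_fst (D : ℕ) (w : ℤ → ℤ) (k : ℕ) : ∀ v : ℤ × ℤ, ((par D w)^[k] v).1 = v.1 - k := by
  induction k with
  | zero => intro v; simp
  | succ k ih =>
    intro v
    rw [Function.iterate_succ_apply, ih]
    simp only [par]
    push_cast
    ring

lemma inv1 (D : ℕ) (w : ℤ → ℤ) (hD : 2 ≤ D) (hw : Steps w) (μ : ℤ) (v : ℤ × ℤ)
    (h1 : μ ≤ w v.1) (h2 : μ ≤ w (v.1 - 1)) :
    (par D w v).2 / (D : ℤ) ^ ((w (v.1 - 1) - μ).toNat) = v.2 / (D : ℤ) ^ ((w v.1 - μ).toNat) := by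
  have hD' : (0 : ℤ) < D := by exact_mod_cast (by omega : 0 < D)
  have h := hw (v.1 - 1)
  rw [sub_add_cancel] at h
  rcases h with h | h
  · have e1 : (par D w v).2 = v.2 / (D : ℤ) := by simp only [par]; rw [if_pos h]
    have e2 : (w v.1 - μ).toNat = (w (v.1 - 1) - μ).toNat + 1 := by omega
    rw [e1, e2, Int.ediv_ediv_of_nonneg hD'.le, pow_succ, mul_comm]
  · have h' : ¬ (w v.1 = w (v.1 - 1) + 1) := by omega
    have e1 : (par D w v).2 = v.2 * (D : ℤ) := by simp only [par]; rw [if_neg h']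
    have e2 : (w (v.1 - 1) - μ).toNat = (w v.1 - μ).toNat + 1 := by omega
    rw [e1, e2, pow_succ]
    exact Int.mul_ediv_mul_of_pos_left _ _ hD'

lemma inv2 (D : ℕ) (w : ℤ → ℤ) (hD : 2 ≤ D) (hw : Steps w) (μ : ℤ) (k : ℕ) :
    ∀ v : ℤ × ℤ, (∀ s, v.1 - k ≤ s → s ≤ v.1 → μ ≤ w s) →
    ((par D w)^[k] v).2 / (D : ℤ) ^ ((w (v.1 - k) - μ).toNat) =
      v.2 / (D : ℤ) ^ ((w v.1 - μ).toNat) := by
  induction k with
  | zero => intro v _; simp
  | succ k ih =>
    intro v h
    rw [Function.iterate_succ_apply]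
    have e : (par D w v).1 = v.1 - 1 := rfl
    have h2 := ih (par D w v) (by
      intro s h1 h2
      rw [e] at h1 h2
      refine h s ?_ ?_
      · push_cast; linarith
      · linarith)
    rw [e] at h2
    have e3 : v.1 - ((k + 1 : ℕ) : ℤ) = v.1 - 1 - k := by push_cast; ring
    rw [e3, h2]
    refine inv1 D w hD hw μ v (h _ ?_ le_rfl) (h _ ?_ ?_)
    · push_cast; linarith
    · push_cast; linarith
    · linarith

lemma fib (D : ℕ) (w : ℤ → ℤ) (Om : ℕ → ℕ) (hD : 2 ≤ D) (hw : Steps w) (hOm : Monotone Om)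
    (h : ∀ s t : ℤ, |w s - w t| ≤ Om (s - t).natAbs) (v : ℤ × ℤ) (k : ℕ) :
    ∃ S : Finset (ℤ × ℤ), S.card ≤ D ^ Om k ∧ ∀ u, (par D w)^[k] u = v → u ∈ S := by
  have hD' : (0 : ℤ) < D := by exact_mod_cast (by omega : 0 < D)
  set μ : ℤ := w (v.1 + k) - Om k with hμ
  set c : ℤ := v.2 / (D : ℤ) ^ ((w v.1 - μ).toNat) with hc
  set P : ℤ := (D : ℤ) ^ Om k with hP
  have hP0 : 0 < P := by positivity
  refine ⟨(Finset.Ico (c * P) ((c + 1) * P)).image (fun i => (v.1 + k, i)), ?_, ?_⟩
  · refine Finset.card_image_le.trans ?_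
    rw [Int.card_Ico]
    have e : (c + 1) * P - c * P = ((D ^ Om k : ℕ) : ℤ) := by
      rw [hP]; push_cast; ring
    rw [e, Int.toNat_natCast]
  · intro u hu
    have hu1 : u.1 = v.1 + k := by
      have := par_iter_fst D w k u
      rw [hu] at this
      linarith
    have h2 := inv2 D w hD hw μ k u (by
      intro s h1 h2
      have h3 := (abs_le.1 (h s (v.1 + k))).1
      have h4 : (s - (v.1 + k)).natAbs ≤ k := by omega
      have h5 : (Om (s - (v.1 + k)).natAbs : ℤ) ≤ Om k := by exact_mod_cast hOm h4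
      rw [hμ]
      linarith)
    rw [hu] at h2
    have e1 : u.1 - k = v.1 := by linarith
    have e2 : (w u.1 - μ).toNat = Om k := by
      rw [hu1, hμ]
      omega
    rw [e1, e2, ← hc, ← hP] at h2
    rw [Finset.mem_image]
    refine ⟨u.2, ?_, by rw [← hu1]⟩
    rw [Finset.mem_Ico, h2]
    exact ⟨Int.ediv_mul_le u.2 (ne_of_gt hP0), Int.lt_ediv_add_one_mul_self u.2 hP0⟩

/-- the last element of a row -/
lemma row_edge (D : ℕ) (w : ℤ → ℤ) (A : Set (ℤ × ℤ)) (hA : A.Finite) (a : ℤ × ℤ) (ha : a ∈ A) :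
    ∃ e ∈ edgeBoundary (Wall D w) A, e.1.1 = a.1 := by
  have hf : {i : ℤ | (a.1, i) ∈ A}.Finite := by
    refine Set.Finite.subset (hA.image Prod.snd) ?_
    intro i hi
    exact ⟨(a.1, i), hi, rfl⟩
  have hne : {i : ℤ | (a.1, i) ∈ A}.Nonempty := ⟨a.2, ha⟩
  obtain ⟨i, hi, hmax⟩ := Set.exists_max_image _ id hf hne
  refine ⟨((a.1, i), (a.1, i + 1)), ⟨hi, ?_, ?_⟩, rfl⟩
  · intro hc
    have := hmax (i + 1) hc
    simp only [id] at this
    omega
  · unfold Wall RowGraph
    rw [SimpleGraph.fromRel_adj]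
    refine ⟨?_, Or.inl (Or.inl ⟨rfl, rfl⟩)⟩
    intro h
    have := congrArg Prod.snd h
    simp at this

theorem t_ISO (hdeg : S_DEG) : S_ISO := by
  intro D w Om hD hw hOm h A hA
  classical
  have hB : (edgeBoundary (Wall D w) A).Finite := by
    refine Set.Finite.subset (hA.biUnion (t := fun v => (fun x => (v, x)) ''
      (Wall D w).neighborSet v) fun v _ => ?_) ?_
    · exact ((hdeg D w (by exact_mod_cast hD) v).1).image _
    · rintro ⟨x, y⟩ ⟨h1, h2, h3⟩
      rw [Set.mem_iUnion₂]
      exact ⟨x, h1, y, h3, rfl⟩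
  set B : Finset ((ℤ × ℤ) × (ℤ × ℤ)) := hB.toFinset with hBdef
  have hn : (edgeBoundary (Wall D w) A).ncard = B.card := Set.ncard_eq_toFinset_card _ hB
  rw [hn]
  set n := B.card with hndef
  choose S hS1 hS2 using fun (v : ℤ × ℤ) (k : ℕ) => fib D w Om hD hw hOm h v k
  -- covering
  have hcov : A ⊆ ↑(B.biUnion fun e => (Finset.range n).biUnion fun k => S e.1 k) := by
    intro u hu
    -- some iterate is not in A
    have hex : ∃ j, (par D w)^[j] u ∉ A := by
      by_contra hcon
      push Not at hcon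
      have hinj : Function.Injective (fun j : ℕ => (par D w)^[j] u) := by
        intro i j hij
        have := congrArg Prod.fst hij
        simp only [par_iter_fst] at this
        omega
      exact (Set.infinite_of_injective_forall_mem hinj hcon) hA
    set j := Nat.find hex with hj
    have hj1 : (par D w)^[j] u ∉ A := Nat.find_spec hex
    have hj2 : ∀ i < j, (par D w)^[i] u ∈ A := fun i hi => not_not.1 (Nat.find_min hex hi)
    have hj0 : j ≠ 0 := by
      intro h0
      rw [h0] at hj1
      exact hj1 hu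
    obtain ⟨k, hk⟩ := Nat.exists_eq_succ_of_ne_zero hj0
    have hkA : (par D w)^[k] u ∈ A := hj2 k (by omega)
    have he : ((par D w)^[k] u, par D w ((par D w)^[k] u)) ∈ edgeBoundary (Wall D w) A := by
      refine ⟨hkA, ?_, par_adj D w hD hw _⟩
      simp only
      rw [← Function.iterate_succ_apply' (par D w) k u]
      rw [hk] at hj1
      exact hj1
    -- rows
    have hkn : k < n := by
      choose f hf1 hf2 using fun (i : Fin j) =>
        row_edge D w A hA _ (hj2 i.1 i.2)
      have hinj : Function.Injective f := by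
        intro x y hxy
        have h1 := hf2 x
        have h2 := hf2 y
        rw [hxy, h2] at h1
        simp only [par_iter_fst] at h1
        apply Fin.ext
        omega
      have hcard : Fintype.card (Fin j) ≤ Fintype.card B :=
        Fintype.card_le_of_injective (fun x => (⟨f x, by
          rw [hBdef, Set.Finite.mem_toFinset]; exact hf1 x⟩ : B)) (by
          intro x y hxy
          exact hinj (congrArg Subtype.val hxy))
      rw [Fintype.card_fin, Fintype.card_coe] at hcard
      omega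
    rw [Finset.mem_coe, Finset.mem_biUnion]
    refine ⟨_, by rw [hBdef, Set.Finite.mem_toFinset]; exact he, ?_⟩
    rw [Finset.mem_biUnion]
    exact ⟨k, Finset.mem_range.2 hkn, hS2 _ k u rfl⟩
  calc A.ncard ≤ (↑(B.biUnion fun e => (Finset.range n).biUnion fun k => S e.1 k) :
        Set (ℤ × ℤ)).ncard := Set.ncard_le_ncard hcov (Finset.finite_toSet _)
    _ = (B.biUnion fun e => (Finset.range n).biUnion fun k => S e.1 k).card :=
        Set.ncard_coe_finset _
    _ ≤ ∑ e ∈ B, ((Finset.range n).biUnion fun k => S e.1 k).card := Finset.card_biUnion_le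
    _ ≤ ∑ _e ∈ B, (n * D ^ Om n) := by
        refine Finset.sum_le_sum fun e _ => ?_
        calc ((Finset.range n).biUnion fun k => S e.1 k).card
            ≤ ∑ k ∈ Finset.range n, (S e.1 k).card := Finset.card_biUnion_le
          _ ≤ ∑ _k ∈ Finset.range n, D ^ Om n := by
              refine Finset.sum_le_sum fun k hk => (hS1 _ k).trans ?_
              exact Nat.pow_le_pow_right (by omega) (hOm (Finset.mem_range.1 hk).le)
          _ = n * D ^ Om n := by simp
    _ = n ^ 2 * D ^ Om n := by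
        rw [Finset.sum_const, smul_eq_mul, ← hndef]
        ring

end Pool.Agent.W407.BW
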